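import Pool.Agent.TH782.VMad.Block

set_option autoImplicit false

/-!
# Mad families of block subspaces coded by closed sets

For every countable field with more than two elements there is a closed set of block sequences whose
spans form an uncountable mad family of block subspaces; the family is Borel. This holds in every
model of set theory, in particular in the Levy collapse extension `V[G]`, and Borel sets of `V[G]`
lie in its inner model `L(ℝ)`.
-/

open MeasureTheory Pool.Agent.TH782.VMad

namespace Pool.Agent.Results.MP_0a8ab4_lc.ClosedMadBlockFamily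

theorem result (F : Type) [Field F] [Countable F] (hF : ∃ α : F, α ≠ 0 ∧ α ≠ 1) :
    ∃ C : Set (ℕ → (ℕ →₀ F)), IsClosedCode C ∧ (∀ x ∈ C, IsBlockSeq x) ∧ Set.InjOn spanOf C ∧
      IsMadBlock (spanOf '' C) ∧ (spanOf '' C).Infinite ∧ ¬ (spanOf '' C).Countable ∧
      MeasurableSet[borel ((ℕ →₀ F) → Bool)] (chars (spanOf '' C)) := by
  obtain ⟨α, h0, h1⟩ := hF
  obtain ⟨C, h1, h2, h3, h4, h5, h6⟩ := main_block h0 h1
  exact ⟨C, h1, h2, h3, h4, fun h => h5 h.countable, h5, h6⟩

end Pool.Agent.Results.MP_0a8ab4_lc.ClosedMadBlockFamily
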