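import Pool.Agent.TH782.FullF2.Abs

set_option autoImplicit false

/-!
# Mad families of block subspaces over the field with two elements: the combinatorial half

`F` is a field with two elements, `E` the space of finitely supported sequences over `F`.

An idempotent filter (proper, living far out, with `P ∈ 𝓕 → ∀ᶠ x, ∀ᶠ y, x + y ∈ P`) decides a set
of sequences of vectors if the branches of some tree, all of whose nodes have their set of immediate
successors in the filter, are all inside or all outside the set.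

If `𝒜` is an almost disjoint family and some idempotent filter containing no member of `𝒜` decides
the countably many sets `SS 𝒜 v` (the sequences contained in a member of `𝒜` through `v`), then
`𝒜` is not maximal: some block subspace is almost disjoint from all its members. Every infinite
almost disjoint family has idempotent ultrafilters containing none of its members.
-/

open Pool.Agent.TH782.VMad Pool.Agent.TH782.FullF2.Abs

namespace Pool.Agent.Results.MP_0a8ab4_lc.IdempotentTreesNoMad

theorem result (F : Type) [Field F] (hF : ∀ α : F, α = 0 ∨ α = 1)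
    (𝒜 : Set (Submodule F (ℕ →₀ F))) (hA : IsAD 𝒜) :
    (∀ 𝓕 : Filter (ℕ →₀ F), IsIdemFilter 𝓕 → (∀ A ∈ 𝒜, (A : Set (ℕ →₀ F)) ∉ 𝓕) →
      (∀ v, Decides 𝓕 (SS 𝒜 v)) →
      ∃ X : Submodule F (ℕ →₀ F), IsBlockSubspace X ∧ ∀ A ∈ 𝒜, AlmostDisjoint X A) ∧
    (𝒜.Infinite → ∃ p : Ultrafilter (ℕ →₀ F), IsIdemFilter (p : Filter (ℕ →₀ F)) ∧
      ∀ A ∈ 𝒜, (A : Set (ℕ →₀ F)) ∉ p) := by
  refine ⟨fun 𝓕 h1 h2 h3 => main_abs hF hA h1 h2 h3, fun hinf => ?_⟩
  obtain ⟨q, hfar, hcos, hid⟩ := exists_idem hA hinf
  obtain ⟨A0, hA0⟩ := hinf.nonempty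
  refine ⟨q, ⟨inferInstance, fun n => ?_, fun P hP => hid (fun x => x ∈ P) hP⟩, fun A hA' hAq => ?_⟩
  · have h1 := hcos A0 hA0 0
    filter_upwards [h1, hfar n] with x hx hx2
    refine ⟨fun h0 => ?_, hx2⟩
    rw [h0, add_zero] at hx
    exact hx (Submodule.zero_mem _)
  · have h1 := hcos A hA' 0
    have h2 : ∀ᶠ x in (q : Filter (ℕ →₀ F)), x ∈ A := hAq
    obtain ⟨x, hx1, hx2⟩ := (h1.and h2).exists
    rw [zero_add] at hx1
    exact hx1 hx2

end Pool.Agent.Results.MP_0a8ab4_lc.IdempotentTreesNoMad
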